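import Pool.Agent.Helper6.CX.Goals

/-! # Project CX (MP_75608d_al), packet IDX: the two elements of the index group -/

namespace Pool.Agent.Helper77.CX

open Equiv
open Pool.Agent.Helper6.CX
open Pool.Agent.Helper15.Pair (IsLen)

/-- a permutation supported in the range of an embedding comes from a permutation of the source -/
theorem via_surj {n M : ℕ} (ψ : Fin M ↪ Fin n) (g : Perm (Fin n))
    (hg : ∀ t, t ∉ Set.range ψ → g t = t) :
    ∃ g' : Perm (Fin M), g'.viaEmbedding ψ = g ∧ Perm.sign g' = Perm.sign g := by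
  classical
  have hp : ∀ x : Fin n, g x ∈ Set.range ψ ↔ x ∈ Set.range ψ := by
    intro x
    constructor
    · intro hx
      by_contra hcon
      rw [hg x hcon] at hx
      exact hcon hx
    · intro hx
      by_contra hcon
      have h1 := hg (g x) hcon
      have h2 := g.injective h1
      rw [h2] at hcon
      exact hcon hx
  set e : Fin M ≃ Set.range ψ := Equiv.ofInjective ψ ψ.injective with he
  have key : (e.symm.permCongr (Perm.subtypePerm g hp)).viaEmbedding ψ = g := by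
    refine Equiv.ext fun t => ?_
    by_cases ht : t ∈ Set.range ψ
    · obtain ⟨s, rfl⟩ := ht
      rw [Perm.viaEmbedding_apply, Equiv.permCongr_apply, Equiv.symm_symm]
      have h3 : ∀ u : Set.range ψ, ψ (e.symm u) = u := fun u => by
        have := e.apply_symm_apply u
        exact congrArg Subtype.val this
      rw [h3]
      rfl
    · rw [Perm.viaEmbedding_apply_of_notMem _ _ _ ht, hg t ht]
  refine ⟨_, key, ?_⟩
  conv_rhs => rw [← key]
  exact (@Perm.sign_extendDomain _ _ _ _ _ _ _ _ (fun _ => Classical.propDecidable _) _).symm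

/-- a product of pairwise commuting involutions is an involution -/
theorem ofFn_sq {G : Type*} [Group G] : ∀ {s : ℕ} (f : Fin s → G)
    (_ : ∀ k l, Commute (f k) (f l)) (_ : ∀ k, f k * f k = 1),
    (List.ofFn f).prod * (List.ofFn f).prod = 1 := by
  intro s
  induction s with
  | zero => intro f _ _; simp
  | succ s ih =>
    intro f hf h2
    rw [List.ofFn_succ, List.prod_cons]
    have h1 := ih (fun k => f k.succ) (fun k l => hf _ _) (fun k => h2 _)
    have hc : Commute (f 0) (List.ofFn fun k : Fin s => f k.succ).prod := by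
      refine Commute.list_prod_right _ _ fun z hz => ?_
      obtain ⟨k, rfl⟩ := (List.mem_ofFn' _ _).mp hz
      exact hf _ _
    calc f 0 * (List.ofFn fun k : Fin s => f k.succ).prod *
          (f 0 * (List.ofFn fun k : Fin s => f k.succ).prod)
        = f 0 * ((List.ofFn fun k : Fin s => f k.succ).prod * f 0) *
          (List.ofFn fun k : Fin s => f k.succ).prod := by group
      _ = (f 0 * f 0) * ((List.ofFn fun k : Fin s => f k.succ).prod *
          (List.ofFn fun k : Fin s => f k.succ).prod) := by rw [← hc.eq]; group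
      _ = 1 := by rw [h2, h1, one_mul]

theorem via_mul {n M : ℕ} (ψ : Fin M ↪ Fin n) (g h : Perm (Fin M)) :
    (g * h).viaEmbedding ψ = g.viaEmbedding ψ * h.viaEmbedding ψ := by
  rw [← Perm.viaEmbeddingHom_apply, map_mul, Perm.viaEmbeddingHom_apply,
    Perm.viaEmbeddingHom_apply]

theorem via_inv {n M : ℕ} (ψ : Fin M ↪ Fin n) (g : Perm (Fin M)) :
    g⁻¹.viaEmbedding ψ = (g.viaEmbedding ψ)⁻¹ := by
  rw [← Perm.viaEmbeddingHom_apply, map_inv, Perm.viaEmbeddingHom_apply]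

theorem via_one {n M : ℕ} (ψ : Fin M ↪ Fin n) :
    (1 : Perm (Fin M)).viaEmbedding ψ = 1 := by
  rw [← Perm.viaEmbeddingHom_apply, map_one]

theorem pow4_dist {k l : ℕ} (hk : k < 16) (hl : l < 16) (hkl : k ≠ l) :
    3 ≤ |(((4 ^ (k + 1) : ℕ) : ℤ)) - ((4 ^ (l + 1) : ℕ) : ℤ)| ∧
      |(((4 ^ (k + 1) : ℕ) : ℤ)) - ((4 ^ (l + 1) : ℕ) : ℤ)| ≤ 3 * 4 ^ 16 := by
  have h1 : ∀ a b : ℕ, a < b → b < 16 → (3 : ℤ) ≤ ((4 ^ (b + 1) : ℕ) : ℤ) - ((4 ^ (a + 1) : ℕ) : ℤ)
      ∧ ((4 ^ (b + 1) : ℕ) : ℤ) - ((4 ^ (a + 1) : ℕ) : ℤ) ≤ 3 * 4 ^ 16 := by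
    intro a b hab hb
    have e1 := Pool.Agent.Helper62.PairD.pow4_lt hab
    have e2 : 4 ^ (b + 1) ≤ 4 ^ 16 := Nat.pow_le_pow_right (by norm_num) (by omega)
    have e3 : 1 ≤ 4 ^ (a + 1) := Nat.one_le_pow _ _ (by norm_num)
    constructor
    · omega
    · omega
  rcases lt_or_gt_of_ne hkl with h | h
  · rw [abs_sub_comm]
    obtain ⟨a1, a2⟩ := h1 k l h hl
    rw [abs_of_nonneg (by linarith)]
    exact ⟨a1, a2⟩
  · obtain ⟨a1, a2⟩ := h1 l k h hk
    rw [abs_of_nonneg (by linarith)]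
    exact ⟨a1, a2⟩

theorem thm (hinv8 : Pool.Agent.Helper6.CX.S_INV8) (hcovk : Pool.Agent.Helper6.CX.S_COVK) :
    Pool.Agent.Helper6.CX.S_IDX := by
  intro E C₀ hE hC₀
  refine ⟨(16 * C₀ + 1) * 2 ^ (E + 1), by positivity, ?_⟩
  intro a' ha' a b hsa hsb
  have hEpos : 0 < E := lt_of_lt_of_le (by positivity) hE
  have hNpos : 0 < 2 * a' * E := by positivity
  have : NeZero (2 * a' * E) := ⟨hNpos.ne'⟩
  -- the shift
  set κ : Perm (Fin (2 * a' * E)) := Equiv.addRight (Fin.ofNat (2 * a' * E) (2 * a')) with hκ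
  have hκE : κ ^ E = 1 := by
    refine Equiv.ext fun v => Fin.ext ?_
    rw [Pool.Agent.Helper62.PairD.y_pow_val κ hκ E v, Perm.one_apply]
    have e1 : v.val + E * (2 * a') = v.val + 2 * a' * E := by ring
    rw [e1, Nat.add_mod_right, Nat.mod_eq_of_lt v.isLt]
  -- the initial segment
  have hMN : 4 * a' + 2 ≤ 2 * a' * E := by
    have h3 : 3 ≤ E := le_trans (by norm_num) hE
    have : 2 * a' * 3 ≤ 2 * a' * E := Nat.mul_le_mul_left _ h3
    omega
  set ψ : Fin (4 * a' + 2) ↪ Fin (2 * a' * E) :=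
    ⟨Fin.castLE hMN, Fin.castLE_injective hMN⟩ with hψ
  have hψr : ∀ t : Fin (2 * a' * E), 4 * a' + 2 ≤ t.val → t ∉ Set.range ψ := by
    rintro t ht ⟨s, rfl⟩
    have : (ψ s).val = s.val := rfl
    have := s.isLt
    omega
  have hψr' : ∀ t : Fin (2 * a' * E), t ∉ Set.range ψ → 4 * a' + 2 ≤ t.val := by
    intro t ht
    by_contra hcon
    exact ht ⟨⟨t.val, by omega⟩, Fin.ext rfl⟩
  obtain ⟨Ta, hTa, hTa2⟩ := hinv8 (4 * a' + 2) (by omega) a hsa
  obtain ⟨Tb, hTb, hTb2⟩ := hinv8 (4 * a' + 2) (by omega) b hsb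
  set T : Fin 16 → Perm (Fin (4 * a' + 2)) := fun i => Fin.append Ta Tb (Fin.cast (by norm_num) i)
    with hT
  have hTinv : ∀ i, T i * T i = 1 := by
    intro i
    simp only [hT]
    refine Fin.addCases (fun j => ?_) (fun j => ?_) (Fin.cast (by norm_num) i : Fin (8 + 8))
    · rw [Fin.append_left]; exact hTa j
    · rw [Fin.append_right]; exact hTb j
  set S : Fin 16 → Perm (Fin (2 * a' * E)) := fun i => (T i).viaEmbedding ψ with hS
  have hSfix : ∀ i (t : Fin (2 * a' * E)), 4 * a' + 2 ≤ t.val → S i t = t := fun i t ht =>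
    Perm.viaEmbedding_apply_of_notMem _ _ _ (hψr t ht)
  have hSinv : ∀ i, S i * S i = 1 := fun i => by
    simp only [hS]
    rw [← via_mul, hTinv, via_one]
  have hM3 : 4 * a' + 2 ≤ 3 * (2 * a') := by omega
  have hN4 : 4 ^ (16 + 2) * (2 * a') ≤ 2 * a' * E := by
    rw [mul_comm]
    exact Nat.mul_le_mul_left _ hE
  set z : Perm (Fin (2 * a' * E)) := (List.ofFn fun i : Fin 16 =>
      κ ^ (4 ^ (i.val + 1)) * S i * (κ ^ (4 ^ (i.val + 1)))⁻¹).prod with hz
  have hz2 : z * z = 1 := by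
    rw [hz]
    refine ofFn_sq _ (fun k l => ?_) fun k => ?_
    · by_cases hkl : k = l
      · subst hkl; exact Commute.refl _
      · obtain ⟨d1, d2⟩ := pow4_dist k.isLt l.isLt (fun h => hkl (Fin.ext h))
        have := Pool.Agent.Helper62.PairD.disj_abs hM3 hN4 κ hκ (hSfix k) (hSfix l) d1 d2
        simpa only [zpow_natCast] using this
    · calc κ ^ (4 ^ (k.val + 1)) * S k * (κ ^ (4 ^ (k.val + 1)))⁻¹ *
            (κ ^ (4 ^ (k.val + 1)) * S k * (κ ^ (4 ^ (k.val + 1)))⁻¹)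
          = κ ^ (4 ^ (k.val + 1)) * (S k * S k) * (κ ^ (4 ^ (k.val + 1)))⁻¹ := by group
        _ = 1 := by rw [hSinv, mul_one, mul_inv_cancel]
  refine ⟨z, κ, hz2, hκE, ?_⟩
  intro L hL hBlk Λ hΛ h1 h2 g hg
  -- commutators
  have hcom : ∀ i j : Fin 16, i ≠ j → L (S i * S j * (S i)⁻¹ * (S j)⁻¹) ≤ 2 * Λ := by
    intro i j hij
    obtain ⟨t, ht, he⟩ := Pool.Agent.Helper62.PairD.two_gen_words hM3 hN4 S hSfix κ hκ z hz i j hij
    have h3 := h1 t ht
    rw [he] at h3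
    have hle : 4 ^ (i.val + 1) ≤ 4 ^ 16 := Nat.pow_le_pow_right (by norm_num) (by omega)
    have h4 := h2 (-((4 ^ (i.val + 1) : ℕ) : ℤ)) (by
      rw [abs_neg, Nat.abs_cast]
      have : ((4 ^ (i.val + 1) : ℕ) : ℤ) ≤ ((4 ^ 16 : ℕ) : ℤ) := by exact_mod_cast hle
      have h5 : ((4 ^ 16 : ℕ) : ℤ) = 4 ^ 16 := by norm_num
      rw [h5] at this
      have h6 : (0 : ℤ) ≤ E := Int.natCast_nonneg _
      linarith) (κ ^ (4 ^ (i.val + 1)) * (S i * S j * (S i)⁻¹ * (S j)⁻¹) *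
        (κ ^ (4 ^ (i.val + 1)))⁻¹)
    rw [zpow_neg, zpow_natCast, inv_inv] at h4
    have h7 : (κ ^ (4 ^ (i.val + 1)))⁻¹ * (κ ^ (4 ^ (i.val + 1)) *
        (S i * S j * (S i)⁻¹ * (S j)⁻¹) * (κ ^ (4 ^ (i.val + 1)))⁻¹) * κ ^ (4 ^ (i.val + 1)) =
        S i * S j * (S i)⁻¹ * (S j)⁻¹ := by group
    rw [h7] at h4
    linarith
  have hcomT : ∀ i j : Fin 16, i ≠ j →
      L ((T i * T j * (T i)⁻¹ * (T j)⁻¹).viaEmbedding ψ) ≤ 2 * Λ := by
    intro i j hij
    have := hcom i j hij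
    rw [via_mul, via_mul, via_mul, via_inv, via_inv]
    exact this
  have hfour : ∀ p q r s : Perm (Fin (4 * a' + 2)), L (p.viaEmbedding ψ) ≤ 2 * Λ →
      L (q.viaEmbedding ψ) ≤ 2 * Λ → L (r.viaEmbedding ψ) ≤ 2 * Λ →
      L (s.viaEmbedding ψ) ≤ 2 * Λ → L ((p * q * r * s).viaEmbedding ψ) ≤ 8 * Λ := by
    intro p q r s hp hq hr hs
    rw [via_mul, via_mul, via_mul]
    have e1 := hL.mul (p.viaEmbedding ψ * q.viaEmbedding ψ * r.viaEmbedding ψ) (s.viaEmbedding ψ)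
    have e2 := hL.mul (p.viaEmbedding ψ * q.viaEmbedding ψ) (r.viaEmbedding ψ)
    have e3 := hL.mul (p.viaEmbedding ψ) (q.viaEmbedding ψ)
    linarith
  have hLa : L (a.viaEmbedding ψ) ≤ 8 * Λ := by
    rw [hTa2]
    exact hfour _ _ _ _ (hcomT 0 1 (by decide)) (hcomT 2 3 (by decide)) (hcomT 4 5 (by decide))
      (hcomT 6 7 (by decide))
  have hLb : L (b.viaEmbedding ψ) ≤ 8 * Λ := by
    rw [hTb2]
    exact hfour _ _ _ _ (hcomT 8 9 (by decide)) (hcomT 10 11 (by decide))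
      (hcomT 12 13 (by decide)) (hcomT 14 15 (by decide))
  have hblock : ∀ g : Perm (Fin (2 * a' * E)), Perm.sign g = 1 →
      (∀ t : Fin (2 * a' * E), 4 * a' + 2 ≤ t.val → g t = t) → L g ≤ 16 * C₀ * Λ := by
    intro g hg hfix
    obtain ⟨g', hg', hs⟩ := via_surj ψ g (fun t ht => hfix t (hψr' t ht))
    have h3 := hBlk ψ g' (hs.trans hg)
    rw [hg'] at h3
    have h4 : C₀ * (L (a.viaEmbedding ψ) + L (b.viaEmbedding ψ)) ≤ C₀ * (8 * Λ + 8 * Λ) :=
      mul_le_mul_of_nonneg_left (add_le_add hLa hLb) hC₀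
    linarith
  have h3 := hcovk (2 * a' * E) (4 * a' + 2) (2 * a') E (by omega) (by rw [mul_comm]) L hL
    (16 * C₀ * Λ + Λ) (by
      intro j hj g hg hfix
      have e1 := h2 (j : ℤ) (by
        rw [Nat.abs_cast]
        have : (j : ℤ) ≤ (E : ℤ) := by exact_mod_cast hj
        have h5 : (0 : ℤ) ≤ 4 ^ 16 := by positivity
        linarith) g
      rw [zpow_natCast] at e1
      have e2 := hblock g hg hfix
      refine e1.trans ?_
      linarith) g hg
  calc L g ≤ (16 * C₀ * Λ + Λ) * 2 ^ (E + 1) := h3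
    _ = (16 * C₀ + 1) * 2 ^ (E + 1) * Λ := by ring

end Pool.Agent.Helper77.CX
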